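import Mathlib

/-!
# Self-interest subtraction games: outcomes and discrepancies are eventually periodic

Partial answer: for every finite nonempty set `S` of positive integers with maximum `m` there is
`k ≥ 1` with `2 k ≤ (3 m + 1) ^ (8 m)` such that for all heap sizes `h ≥ m + (3 m + 1) ^ (8 m)` and
all tie-breaking settings both totals satisfy `o(h + 2 k) = o(h) + k`; hence all discrepancies are
eventually periodic with the common period `2 k`.

Idea: the totals differ from `h / 2` by at most `m`, by taking `max S` whenever possible; the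
totals at `h` are determined by those at `h - 1, ..., h - m` through a rule that commutes with
adding a constant, so the normalised totals form a deterministic finite state sequence.
-/

namespace Pool.Agent.Results.MP_e9de46_co.EventuallyPeriodic

/-- Tie-breaking conventions: friendly or antagonistic. -/
inductive Conv
  | F
  | A
  deriving DecidableEq

instance : Fintype Conv := ⟨{Conv.F, Conv.A}, fun c => by cases c <;> simp⟩

/-- The choice of the mover among a finite set of candidate pairs (own total, total of the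
opponent): first the largest first coordinate `a`, then among the candidates with first
coordinate `a` the largest (convention `F`) or smallest (convention `A`) second coordinate.
For the empty set of candidates the value is `(0, 0)`. -/
noncomputable def best (c : Conv) (T : Finset (ℕ × ℕ)) : ℕ × ℕ :=
  match c with
  | Conv.F => (T.sup Prod.fst, (T.filter fun p => p.1 = T.sup Prod.fst).sup Prod.snd)
  | Conv.A => (T.sup Prod.fst, sInf {b : ℕ | (T.sup Prod.fst, b) ∈ T})

/-- The pair of totals (player to move, other player) on the heap `h`, if the player to move has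
the convention `c` and the other one the convention `d`. The candidates are the pairs
`(s + o^2_{dc}(h - s), o^1_{dc}(h - s))` for the legal moves `s`. -/
noncomputable def out (S : Finset ℕ) (c d : Conv) (h : ℕ) : ℕ × ℕ :=
  best c (((S.filter fun s => 1 ≤ s ∧ s ≤ h).attach).image fun s =>
    (s.1 + (out S d c (h - s.1)).2, (out S d c (h - s.1)).1))
termination_by h
decreasing_by
  all_goals
    have := (Finset.mem_filter.1 s.2).2
    omega

theorem best_empty (c : Conv) : best c ∅ = (0, 0) := by
  cases c <;> simp [best]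

theorem le_best (c : Conv) (T : Finset (ℕ × ℕ)) {p : ℕ × ℕ} (hp : p ∈ T) :
    p.1 ≤ (best c T).1 := by
  cases c <;> exact Finset.le_sup (f := Prod.fst) hp

theorem best_mem (c : Conv) (T : Finset (ℕ × ℕ)) (hT : T.Nonempty) : best c T ∈ T := by
  obtain ⟨p, hp, hpa⟩ := Finset.exists_mem_eq_sup T hT Prod.fst
  cases c
  · have hne : (T.filter fun p => p.1 = T.sup Prod.fst).Nonempty :=
      ⟨p, Finset.mem_filter.2 ⟨hp, hpa.symm⟩⟩
    obtain ⟨q, hq, hqb⟩ := Finset.exists_mem_eq_sup _ hne Prod.snd
    obtain ⟨hq1, hq2⟩ := Finset.mem_filter.1 hq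
    have : best Conv.F T = q := by
      unfold best
      simp only
      rw [hqb, ← hq2]
    rw [this]
    exact hq1
  · have hne : {b : ℕ | (T.sup Prod.fst, b) ∈ T}.Nonempty := ⟨p.2, by
      show (T.sup Prod.fst, p.2) ∈ T
      rw [hpa]; exact hp⟩
    exact Nat.sInf_mem hne

/-- The candidate pairs. -/
noncomputable def cand (S : Finset ℕ) (c d : Conv) (h : ℕ) : Finset (ℕ × ℕ) :=
  ((S.filter fun s => 1 ≤ s ∧ s ≤ h).attach).image fun s =>
    (s.1 + (out S d c (h - s.1)).2, (out S d c (h - s.1)).1)

theorem out_eq (S : Finset ℕ) (c d : Conv) (h : ℕ) : out S c d h = best c (cand S c d h) := by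
  rw [out, cand]

theorem mem_cand (S : Finset ℕ) (c d : Conv) (h : ℕ) (p : ℕ × ℕ) :
    p ∈ cand S c d h ↔ ∃ s ∈ S, 1 ≤ s ∧ s ≤ h ∧
      p = (s + (out S d c (h - s)).2, (out S d c (h - s)).1) := by
  unfold cand
  rw [Finset.mem_image]
  constructor
  · rintro ⟨⟨s, hs⟩, -, rfl⟩
    obtain ⟨h1, h2, h3⟩ := Finset.mem_filter.1 hs
    exact ⟨s, h1, h2, h3, rfl⟩
  · rintro ⟨s, h1, h2, h3, rfl⟩
    exact ⟨⟨s, Finset.mem_filter.2 ⟨h1, h2, h3⟩⟩, Finset.mem_attach _ _, rfl⟩

/-- The bounds for the totals. -/
theorem bounds (S : Finset ℕ) (hS : S.Nonempty) (hpos : ∀ s ∈ S, 1 ≤ s) (h : ℕ) :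
    ∀ c d : Conv, (out S c d h).1 + (out S c d h).2 ≤ h ∧ h ≤ 2 * (out S c d h).1 + S.max' hS ∧
      h ≤ 2 * (out S c d h).2 + 2 * S.max' hS := by
  induction h using Nat.strong_induction_on with
  | _ h ih =>
    intro c d
    have hM : S.max' hS ∈ S := S.max'_mem hS
    have hM1 : 1 ≤ S.max' hS := hpos _ hM
    have hout := out_eq S c d h
    have hmem : ∀ s ∈ S, s ≤ h →
        (s + (out S d c (h - s)).2, (out S d c (h - s)).1) ∈ cand S c d h := by
      intro s hs hsh
      exact (mem_cand S c d h _).2 ⟨s, hs, hpos s hs, hsh, rfl⟩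
    rcases (cand S c d h).eq_empty_or_nonempty with he | hne
    · have hlt : h < S.max' hS := by
        by_contra hcon
        push Not at hcon
        have := hmem _ hM hcon
        rw [he] at this
        simp at this
      rw [hout, he, best_empty]
      simp only
      omega
    · have hb := best_mem c _ hne
      rw [← hout, mem_cand] at hb
      obtain ⟨s, hsS, hs1, hsh, hs2⟩ := hb
      have hsM : s ≤ S.max' hS := S.le_max' s hsS
      obtain ⟨i1, i2, i3⟩ := ih (h - s) (by omega) d c
      have e1 : (out S c d h).1 = s + (out S d c (h - s)).2 := by rw [hs2]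
      have e2 : (out S c d h).2 = (out S d c (h - s)).1 := by rw [hs2]
      refine ⟨by omega, ?_, by omega⟩
      rcases lt_or_ge h (S.max' hS) with hlt | hge
      · omega
      · have hle := le_best c _ (hmem _ hM hge)
        rw [← hout] at hle
        simp only at hle
        obtain ⟨j1, j2, j3⟩ := ih (h - S.max' hS) (by omega) d c
        omega

/-- Adding `k` to both totals. -/
def sh (k : ℕ) (p : ℕ × ℕ) : ℕ × ℕ := (p.1 + k, p.2 + k)

/-- `p` is the choice of the mover from `T`. -/
def IsBest (c : Conv) (T : Finset (ℕ × ℕ)) (p : ℕ × ℕ) : Prop :=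
  p ∈ T ∧ (∀ q ∈ T, q.1 ≤ p.1) ∧
    ∀ q ∈ T, q.1 = p.1 → (c = Conv.F → q.2 ≤ p.2) ∧ (c = Conv.A → p.2 ≤ q.2)

theorem isBest_best (c : Conv) (T : Finset (ℕ × ℕ)) (hT : T.Nonempty) : IsBest c T (best c T) := by
  refine ⟨best_mem c T hT, fun q hq => le_best c T hq, fun q hq hq1 => ?_⟩
  cases c
  · refine ⟨fun _ => ?_, fun h => absurd h (by decide)⟩
    exact Finset.le_sup (f := Prod.snd) (Finset.mem_filter.2 ⟨hq, hq1⟩)
  · refine ⟨fun h => absurd h (by decide), fun _ => ?_⟩
    apply Nat.sInf_le
    show (T.sup Prod.fst, q.2) ∈ T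
    have : q.1 = T.sup Prod.fst := hq1
    rw [← this]
    exact hq

theorem isBest_unique (c : Conv) (T : Finset (ℕ × ℕ)) (p q : ℕ × ℕ) (hp : IsBest c T p)
    (hq : IsBest c T q) : p = q := by
  obtain ⟨p1, p2, p3⟩ := hp
  obtain ⟨q1, q2, q3⟩ := hq
  have h1 : p.1 = q.1 := le_antisymm (q2 p p1) (p2 q q1)
  have a := p3 q q1 h1.symm
  have b := q3 p p1 h1
  have h2 : p.2 = q.2 := by
    cases c
    · exact le_antisymm (b.1 rfl) (a.1 rfl)
    · exact le_antisymm (a.2 rfl) (b.2 rfl)
  exact Prod.ext h1 h2

theorem best_shift (c : Conv) (T : Finset (ℕ × ℕ)) (hT : T.Nonempty) (k : ℕ) :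
    best c (T.image (sh k)) = sh k (best c T) := by
  apply isBest_unique c (T.image (sh k)) _ _ (isBest_best c _ (hT.image _))
  obtain ⟨h1, h2, h3⟩ := isBest_best c T hT
  refine ⟨Finset.mem_image_of_mem _ h1, ?_, ?_⟩
  · intro q hq
    obtain ⟨r, hr, rfl⟩ := Finset.mem_image.1 hq
    have := h2 r hr
    simp only [sh]
    omega
  · intro q hq hq1
    obtain ⟨r, hr, rfl⟩ := Finset.mem_image.1 hq
    have hr1 : r.1 = (best c T).1 := by
      simp only [sh] at hq1
      omega
    obtain ⟨a, b⟩ := h3 r hr hr1
    refine ⟨fun hc => ?_, fun hc => ?_⟩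
    · have := a hc
      simp only [sh]
      omega
    · have := b hc
      simp only [sh]
      omega

/-- One step: equal windows give equal totals, up to a common shift. -/
theorem step (S : Finset ℕ) (hS : S.Nonempty) (hpos : ∀ s ∈ S, 1 ≤ s) (h h' k : ℕ)
    (hm : S.max' hS ≤ h) (hm' : S.max' hS ≤ h')
    (H : ∀ j, 1 ≤ j → j ≤ S.max' hS → ∀ c d : Conv,
      out S c d (h' - j) = sh k (out S c d (h - j))) (c d : Conv) :
    out S c d h' = sh k (out S c d h) := by
  have hM : S.max' hS ∈ S := S.max'_mem hS
  have hne : (cand S c d h).Nonempty :=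
    ⟨_, (mem_cand S c d h _).2 ⟨_, hM, hpos _ hM, hm, rfl⟩⟩
  rw [out_eq, out_eq, ← best_shift c _ hne]
  congr 1
  ext p
  rw [mem_cand, Finset.mem_image]
  constructor
  · rintro ⟨s, hs, hs1, hs2, rfl⟩
    have hsM : s ≤ S.max' hS := S.le_max' s hs
    refine ⟨_, (mem_cand S c d h _).2 ⟨s, hs, hs1, by omega, rfl⟩, ?_⟩
    rw [H s hs1 hsM d c]
    exact Prod.ext (by simp only [sh]; try omega) (by simp only [sh]; try omega)
  · rintro ⟨q, hq, rfl⟩
    obtain ⟨s, hs, hs1, hs2, rfl⟩ := (mem_cand S c d h _).1 hq
    have hsM : s ≤ S.max' hS := S.le_max' s hs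
    refine ⟨s, hs, hs1, by omega, ?_⟩
    rw [H s hs1 hsM d c]
    exact Prod.ext (by simp only [sh]; try omega) (by simp only [sh]; try omega)

/-- Two equal windows give a period. -/
theorem forever (S : Finset ℕ) (hS : S.Nonempty) (hpos : ∀ s ∈ S, 1 ≤ s) (h h' k : ℕ)
    (hm : S.max' hS ≤ h) (hm' : S.max' hS ≤ h')
    (H : ∀ j, 1 ≤ j → j ≤ S.max' hS → ∀ c d : Conv,
      out S c d (h' - j) = sh k (out S c d (h - j))) (n : ℕ) :
    ∀ c d : Conv, out S c d (h' + n) = sh k (out S c d (h + n)) := by
  induction n using Nat.strong_induction_on with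
  | _ n ih =>
    apply step S hS hpos (h + n) (h' + n) k (by omega) (by omega)
    intro j hj1 hj2 c d
    rcases le_or_gt j n with hjn | hjn
    · have := ih (n - j) (by omega) c d
      rw [show h' + n - j = h' + (n - j) by omega, show h + n - j = h + (n - j) by omega]
      exact this
    · have := H (j - n) (by omega) (by omega) c d
      rw [show h' + n - j = h' - (j - n) by omega, show h + n - j = h - (j - n) by omega]
      exact this

/-- Eventual periodicity of all outcomes, up to the linear term. -/
theorem outcomes (S : Finset ℕ) (hS : S.Nonempty) (hpos : ∀ s ∈ S, 1 ≤ s) :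
    ∃ k : ℕ, 1 ≤ k ∧ 2 * k ≤ (3 * S.max' hS + 1) ^ (8 * S.max' hS) ∧
      ∀ h, S.max' hS + (3 * S.max' hS + 1) ^ (8 * S.max' hS) ≤ h → ∀ c d : Conv,
        out S c d (h + 2 * k) = ((out S c d h).1 + k, (out S c d h).2 + k) := by
  classical
  have hM : S.max' hS ∈ S := S.max'_mem hS
  have hM1 : 1 ≤ S.max' hS := hpos _ hM
  set m := S.max' hS with hmdef
  set N := (3 * m + 1) ^ (8 * m) with hN
  have B := bounds S hS hpos
  let f : Fin (N + 1) → (Fin m → Conv → Conv → Fin (3 * m + 1) × Fin (3 * m + 1)) :=
    fun t j c d =>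
      (⟨2 * (out S c d (m + t - (j + 1))).1 + m - (m + t - (j + 1)), by
          obtain ⟨b1, b2, b3⟩ := B (m + t - (j + 1)) c d
          omega⟩,
       ⟨2 * (out S c d (m + t - (j + 1))).2 + 2 * m - (m + t - (j + 1)), by
          obtain ⟨b1, b2, b3⟩ := B (m + t - (j + 1)) c d
          omega⟩)
  have hcard : Fintype.card (Fin m → Conv → Conv → Fin (3 * m + 1) × Fin (3 * m + 1)) = N := by
    have h2 : Fintype.card Conv = 2 := rfl
    simp only [Fintype.card_fun, Fintype.card_prod, Fintype.card_fin, h2]
    rw [hN, ← pow_mul, ← pow_mul, ← sq, ← pow_mul]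
    congr 1
    ring
  obtain ⟨t, t', hne, hf⟩ := Fintype.exists_ne_map_eq_of_card_lt f (by
    rw [hcard, Fintype.card_fin]; omega)
  wlog hlt : t < t' generalizing t t' with Hw
  · exact Hw t' t hne.symm hf.symm (lt_of_le_of_ne (not_lt.1 hlt) hne.symm)
  have hlt' : (t : ℕ) < t' := hlt
  have ht' : (t' : ℕ) ≤ N := by have := t'.2; omega
  have key : ∀ j, 1 ≤ j → j ≤ m → ∀ c d : Conv,
      2 * (out S c d (m + t' - j)).1 = 2 * (out S c d (m + t - j)).1 + (t' - t) ∧
      2 * (out S c d (m + t' - j)).2 = 2 * (out S c d (m + t - j)).2 + (t' - t) := by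
    intro j hj1 hj2 c d
    have h1 := congrFun (congrFun (congrFun hf ⟨j - 1, by omega⟩) c) d
    simp only [f, Prod.mk.injEq, Fin.mk.injEq] at h1
    rw [Nat.sub_add_cancel hj1] at h1
    obtain ⟨a1, a2, a3⟩ := B (m + t - j) c d
    obtain ⟨b1, b2, b3⟩ := B (m + t' - j) c d
    obtain ⟨e1, e2⟩ := h1
    constructor <;> omega
  obtain ⟨k, hk⟩ : ∃ k, (t' : ℕ) - t = 2 * k := by
    have := (key 1 le_rfl hM1 Conv.F Conv.F).1
    exact ⟨((t' : ℕ) - t) / 2, by omega⟩
  refine ⟨k, by omega, by omega, ?_⟩
  intro h hh c d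
  have F := forever S hS hpos (m + t) (m + t') k (by omega) (by omega) (by
    intro j hj1 hj2 c d
    obtain ⟨e1, e2⟩ := key j hj1 hj2 c d
    apply Prod.ext
    · simp only [sh]
      omega
    · simp only [sh]
      omega) (h - (m + t)) c d
  rw [show m + t' + (h - (m + t)) = h + 2 * k by omega,
    show m + t + (h - (m + t)) = h by omega] at F
  exact F

/-- Heaps smaller than `m`: the move `m` is not legal. -/
theorem out_erase (S : Finset ℕ) (m h : ℕ) : h < m → ∀ c d : Conv,
    out S c d h = out (S.erase m) c d h := by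
  induction h using Nat.strong_induction_on with
  | _ h ih =>
    intro hlt c d
    rw [out_eq, out_eq]
    congr 1
    ext p
    rw [mem_cand, mem_cand]
    constructor
    · rintro ⟨s, hs, h1, h2, rfl⟩
      refine ⟨s, Finset.mem_erase.2 ⟨by omega, hs⟩, h1, h2, ?_⟩
      rw [ih (h - s) (by omega) (by omega) d c]
    · rintro ⟨s, hs, h1, h2, rfl⟩
      refine ⟨s, (Finset.mem_erase.1 hs).2, h1, h2, ?_⟩
      rw [ih (h - s) (by omega) (by omega) d c]

/-- Bounds for small heaps in terms of the second largest move. -/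
theorem small (S : Finset ℕ) (hS : S.Nonempty) (hpos : ∀ s ∈ S, 1 ≤ s)
    (h4 : ∀ s ∈ S, s ≠ S.max' hS → 4 * s < S.max' hS) (s : ℕ) (hs : s ∈ S)
    (hsm : s ≠ S.max' hS) : ∃ m', s ≤ m' ∧ 4 * m' < S.max' hS ∧ ∀ y, y < S.max' hS →
      ∀ c d : Conv, (out S c d y).1 + (out S c d y).2 ≤ y ∧ y ≤ 2 * (out S c d y).1 + m' ∧
        y ≤ 2 * (out S c d y).2 + 2 * m' := by
  have hs' : s ∈ S.erase (S.max' hS) := Finset.mem_erase.2 ⟨hsm, hs⟩
  have hne : (S.erase (S.max' hS)).Nonempty := ⟨s, hs'⟩
  have hmem := Finset.mem_erase.1 ((S.erase (S.max' hS)).max'_mem hne)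
  refine ⟨(S.erase (S.max' hS)).max' hne, Finset.le_max' _ s hs', h4 _ hmem.2 hmem.1, ?_⟩
  intro y hy c d
  rw [out_erase S _ y hy c d]
  exact bounds (S.erase (S.max' hS)) hne (fun t ht => hpos t (Finset.mem_erase.1 ht).2) y c d

/-- If all other moves are smaller than a quarter of the largest one, the largest legal move
`max S` is always a choice. -/
theorem greedy (S : Finset ℕ) (hS : S.Nonempty) (hpos : ∀ s ∈ S, 1 ≤ s)
    (h4 : ∀ s ∈ S, s ≠ S.max' hS → 4 * s < S.max' hS) (h : ℕ) : S.max' hS ≤ h → ∀ c d : Conv,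
      out S c d h = (S.max' hS + (out S d c (h - S.max' hS)).2,
        (out S d c (h - S.max' hS)).1) := by
  have hM : S.max' hS ∈ S := S.max'_mem hS
  have hM1 : 1 ≤ S.max' hS := hpos _ hM
  induction h using Nat.strong_induction_on with
  | _ h ih =>
    intro hmh c d
    have hmem0 : (S.max' hS + (out S d c (h - S.max' hS)).2, (out S d c (h - S.max' hS)).1) ∈
        cand S c d h := (mem_cand S c d h _).2 ⟨_, hM, hM1, hmh, rfl⟩
    have cmp : ∀ s ∈ S, s ≤ h → s ≠ S.max' hS →
        s + (out S d c (h - s)).2 < S.max' hS + (out S d c (h - S.max' hS)).2 ∨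
        (s + (out S d c (h - s)).2 = S.max' hS + (out S d c (h - S.max' hS)).2 ∧
          (c = Conv.F → (out S d c (h - s)).1 ≤ (out S d c (h - S.max' hS)).1) ∧
          (c = Conv.A → (out S d c (h - S.max' hS)).1 ≤ (out S d c (h - s)).1)) := by
      intro s hs hsh hsm
      obtain ⟨m', h1, h2, h3⟩ := small S hS hpos h4 s hs hsm
      have hs1 := hpos s hs
      set m := S.max' hS with hmdef
      rcases lt_or_ge h (2 * m) with c1 | c1
      · left
        obtain ⟨x1, x2, x3⟩ := h3 (h - m) (by omega) d c
        rcases lt_or_ge (h - s) m with c2 | c2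
        · obtain ⟨y1, y2, y3⟩ := h3 (h - s) c2 d c
          omega
        · have e := ih (h - s) (by omega) c2 d c
          have e' : (out S d c (h - s)).2 = (out S c d (h - s - m)).1 := by rw [e]
          obtain ⟨y1, y2, y3⟩ := h3 (h - s - m) (by omega) c d
          omega
      · have e1 := ih (h - m) (by omega) (by omega) d c
        have e2 := ih (h - s) (by omega) (by omega) d c
        have e11 : (out S d c (h - m)).1 = m + (out S c d (h - m - m)).2 := by rw [e1]
        have e12 : (out S d c (h - m)).2 = (out S c d (h - m - m)).1 := by rw [e1]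
        have e21 : (out S d c (h - s)).1 = m + (out S c d (h - s - m)).2 := by rw [e2]
        have e22 : (out S d c (h - s)).2 = (out S c d (h - s - m)).1 := by rw [e2]
        rcases lt_or_ge (h - m - m) s with c4 | c4
        · left
          obtain ⟨y1, y2, y3⟩ := h3 (h - s - m) (by omega) c d
          obtain ⟨x1, x2, x3⟩ := h3 (h - m - m) (by omega) c d
          omega
        · have e3 := ih (h - s - m) (by omega) (by omega) c d
          rw [show h - s - m - m = h - m - m - s by omega] at e3
          have e31 : (out S c d (h - s - m)).1 = m + (out S d c (h - m - m - s)).2 := by rw [e3]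
          have e32 : (out S c d (h - s - m)).2 = (out S d c (h - m - m - s)).1 := by rw [e3]
          have hmem : (s + (out S d c (h - m - m - s)).2, (out S d c (h - m - m - s)).1) ∈
              cand S c d (h - m - m) :=
            (mem_cand S c d (h - m - m) _).2 ⟨s, hs, hs1, c4, rfl⟩
          have hb := isBest_best c (cand S c d (h - m - m)) ⟨_, hmem⟩
          rw [← out_eq] at hb
          obtain ⟨-, b2, b3⟩ := hb
          have b2' := b2 _ hmem
          simp only at b2'
          rcases lt_or_eq_of_le b2' with hlt | heq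
          · left
            omega
          · right
            obtain ⟨b4, b5⟩ := b3 _ hmem heq
            simp only at b4 b5
            refine ⟨by omega, fun hc => ?_, fun hc => ?_⟩
            · have := b4 hc
              omega
            · have := b5 hc
              omega
    apply isBest_unique c (cand S c d h)
    · rw [out_eq]
      exact isBest_best c _ ⟨_, hmem0⟩
    · refine ⟨hmem0, fun q hq => ?_, fun q hq hq1 => ?_⟩
      · obtain ⟨s, hs, hs1, hs2, rfl⟩ := (mem_cand S c d h _).1 hq
        by_cases hsm : s = S.max' hS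
        · rw [hsm]
        · rcases cmp s hs hs2 hsm with hc | ⟨hc, -⟩
          · exact hc.le
          · exact hc.le
      · obtain ⟨s, hs, hs1, hs2, rfl⟩ := (mem_cand S c d h _).1 hq
        by_cases hsm : s = S.max' hS
        · rw [hsm]
          exact ⟨fun _ => le_rfl, fun _ => le_rfl⟩
        · rcases cmp s hs hs2 hsm with hc | ⟨-, hc⟩
          · exact absurd hq1 hc.ne
          · exact hc

/-- The period `2 max S` if all other moves are smaller than `max S / 4`. -/
theorem greedy_period (S : Finset ℕ) (hS : S.Nonempty) (hpos : ∀ s ∈ S, 1 ≤ s)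
    (h4 : ∀ s ∈ S, s ≠ S.max' hS → 4 * s < S.max' hS) (h : ℕ) (c d : Conv) :
    out S c d (h + 2 * S.max' hS) =
      ((out S c d h).1 + S.max' hS, (out S c d h).2 + S.max' hS) := by
  have e1 := greedy S hS hpos h4 (h + 2 * S.max' hS) (by omega) c d
  have e2 := greedy S hS hpos h4 (h + 2 * S.max' hS - S.max' hS) (by omega) d c
  rw [e1, e2, show h + 2 * S.max' hS - S.max' hS - S.max' hS = h by omega]
  exact Prod.ext (by simp only; omega) (by simp only; omega)

/-- If the smallest move divides all moves, the game is constant sum and the conventions do not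
matter. -/
theorem const_sum (S : Finset ℕ) (g : ℕ) (hg : g ∈ S) (hg1 : 1 ≤ g) (hdvd : ∀ s ∈ S, g ∣ s)
    (h : ℕ) : ∀ c d : Conv, out S c d h = out S Conv.F Conv.F h ∧
      (out S c d h).1 + (out S c d h).2 = g * (h / g) := by
  induction h using Nat.strong_induction_on with
  | _ h ih =>
    have hsum : ∀ c d : Conv, ∀ p ∈ cand S c d h, p.1 + p.2 = g * (h / g) := by
      intro c d p hp
      obtain ⟨s, hs, h1, h2, rfl⟩ := (mem_cand S c d h _).1 hp
      obtain ⟨k, rfl⟩ := hdvd s hs
      have h3 := (ih (h - g * k) (by omega) d c).2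
      have h4 : (h - g * k) / g = h / g - k := Nat.sub_mul_div h g k
      have h5 : k ≤ h / g := (Nat.le_div_iff_mul_le (by omega)).2 (by rw [mul_comm]; exact h2)
      have h6 : g * (h / g - k) = g * (h / g) - g * k := Nat.mul_sub g (h / g) k
      have h7 : g * k ≤ g * (h / g) := Nat.mul_le_mul_left g h5
      rw [h4, h6] at h3
      simp only
      omega
    have hcand : ∀ c d : Conv, cand S c d h = cand S Conv.F Conv.F h := by
      intro c d
      ext p
      rw [mem_cand, mem_cand]
      constructor
      · rintro ⟨s, hs, h1, h2, rfl⟩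
        refine ⟨s, hs, h1, h2, ?_⟩
        rw [(ih (h - s) (by omega) d c).1]
      · rintro ⟨s, hs, h1, h2, rfl⟩
        refine ⟨s, hs, h1, h2, ?_⟩
        rw [(ih (h - s) (by omega) d c).1]
    intro c d
    rcases (cand S Conv.F Conv.F h).eq_empty_or_nonempty with he | hne
    · have hlt : h < g := by
        by_contra hcon
        push Not at hcon
        have : (g + (out S Conv.F Conv.F (h - g)).2, (out S Conv.F Conv.F (h - g)).1) ∈
            cand S Conv.F Conv.F h := (mem_cand S _ _ h _).2 ⟨g, hg, hg1, hcon, rfl⟩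
        rw [he] at this
        simp at this
      rw [out_eq, out_eq, hcand c d, he, best_empty, best_empty, Nat.div_eq_of_lt hlt]
      simp
    · rw [out_eq, out_eq, hcand c d]
      obtain ⟨b1, b2, b3⟩ := isBest_best Conv.F _ hne
      refine ⟨?_, ?_⟩
      · apply isBest_unique c _ _ _ (isBest_best c _ hne)
        refine ⟨b1, b2, fun q hq hq1 => ?_⟩
        have e1 := hsum Conv.F Conv.F q hq
        have e2 := hsum Conv.F Conv.F _ b1
        exact ⟨fun _ => by omega, fun _ => by omega⟩
      · exact hsum Conv.F Conv.F _ (best_mem c _ hne)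

/-- If the move `max S` is a choice at `2 max S - 1` consecutive heap sizes, it is a choice for all
larger heaps. -/
theorem window (S : Finset ℕ) (hS : S.Nonempty) (hpos : ∀ s ∈ S, 1 ≤ s) (P : Conv → Conv → Prop)
    (hP : ∀ c d, P c d → P d c) (x : ℕ) (hx : S.max' hS ≤ x)
    (hw : ∀ h, x ≤ h → h + 1 < x + 2 * S.max' hS → ∀ c d, P c d →
      out S c d h = (S.max' hS + (out S d c (h - S.max' hS)).2,
        (out S d c (h - S.max' hS)).1)) (h : ℕ) : x ≤ h → ∀ c d, P c d →
      out S c d h = (S.max' hS + (out S d c (h - S.max' hS)).2,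
        (out S d c (h - S.max' hS)).1) := by
  have hM : S.max' hS ∈ S := S.max'_mem hS
  have hM1 : 1 ≤ S.max' hS := hpos _ hM
  induction h using Nat.strong_induction_on with
  | _ h ih =>
    intro hxh c d hcd
    rcases lt_or_ge (h + 1) (x + 2 * S.max' hS) with c1 | c1
    · exact hw h hxh c1 c d hcd
    have hdc := hP c d hcd
    have hmem0 : (S.max' hS + (out S d c (h - S.max' hS)).2, (out S d c (h - S.max' hS)).1) ∈
        cand S c d h := (mem_cand S c d h _).2 ⟨_, hM, hM1, by omega, rfl⟩
    have cmp : ∀ s ∈ S, s ≤ h → s ≠ S.max' hS →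
        s + (out S d c (h - s)).2 < S.max' hS + (out S d c (h - S.max' hS)).2 ∨
        (s + (out S d c (h - s)).2 = S.max' hS + (out S d c (h - S.max' hS)).2 ∧
          (c = Conv.F → (out S d c (h - s)).1 ≤ (out S d c (h - S.max' hS)).1) ∧
          (c = Conv.A → (out S d c (h - S.max' hS)).1 ≤ (out S d c (h - s)).1)) := by
      intro s hs hsh hsm
      have hs1 := hpos s hs
      have hs2 := S.le_max' s hs
      set m := S.max' hS with hmdef
      have e1 := ih (h - m) (by omega) (by omega) d c hdc
      have e2 := ih (h - s) (by omega) (by omega) d c hdc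
      have e11 : (out S d c (h - m)).1 = m + (out S c d (h - m - m)).2 := by rw [e1]
      have e12 : (out S d c (h - m)).2 = (out S c d (h - m - m)).1 := by rw [e1]
      rw [show h - s - m = h - s - m from rfl] at e2
      have e21 : (out S d c (h - s)).1 = m + (out S c d (h - s - m)).2 := by rw [e2]
      have e22 : (out S d c (h - s)).2 = (out S c d (h - s - m)).1 := by rw [e2]
      have e3 := ih (h - s - m) (by omega) (by omega) c d hcd
      rw [show h - s - m - m = h - m - m - s by omega] at e3
      have e31 : (out S c d (h - s - m)).1 = m + (out S d c (h - m - m - s)).2 := by rw [e3]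
      have e32 : (out S c d (h - s - m)).2 = (out S d c (h - m - m - s)).1 := by rw [e3]
      have hmem : (s + (out S d c (h - m - m - s)).2, (out S d c (h - m - m - s)).1) ∈
          cand S c d (h - m - m) :=
        (mem_cand S c d (h - m - m) _).2 ⟨s, hs, hs1, by omega, rfl⟩
      have hb := isBest_best c (cand S c d (h - m - m)) ⟨_, hmem⟩
      rw [← out_eq] at hb
      obtain ⟨-, b2, b3⟩ := hb
      have b2' := b2 _ hmem
      simp only at b2'
      rcases lt_or_eq_of_le b2' with hlt | heq
      · left
        omega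
      · right
        obtain ⟨b4, b5⟩ := b3 _ hmem heq
        simp only at b4 b5
        refine ⟨by omega, fun hc => ?_, fun hc => ?_⟩
        · have := b4 hc
          omega
        · have := b5 hc
          omega
    apply isBest_unique c (cand S c d h)
    · rw [out_eq]
      exact isBest_best c _ ⟨_, hmem0⟩
    · refine ⟨hmem0, fun q hq => ?_, fun q hq hq1 => ?_⟩
      · obtain ⟨s, hs, hs1, hs2, rfl⟩ := (mem_cand S c d h _).1 hq
        by_cases hsm : s = S.max' hS
        · rw [hsm]
        · rcases cmp s hs hs2 hsm with hc | ⟨hc, -⟩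
          · exact hc.le
          · exact hc.le
      · obtain ⟨s, hs, hs1, hs2, rfl⟩ := (mem_cand S c d h _).1 hq
        by_cases hsm : s = S.max' hS
        · rw [hsm]
          exact ⟨fun _ => le_rfl, fun _ => le_rfl⟩
        · rcases cmp s hs hs2 hsm with hc | ⟨-, hc⟩
          · exact absurd hq1 hc.ne
          · exact hc

/-- The period `2 max S` from a window. -/
theorem window_period (S : Finset ℕ) (hS : S.Nonempty) (hpos : ∀ s ∈ S, 1 ≤ s)
    (P : Conv → Conv → Prop) (hP : ∀ c d, P c d → P d c) (x : ℕ) (hx : S.max' hS ≤ x)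
    (hw : ∀ h, x ≤ h → h + 1 < x + 2 * S.max' hS → ∀ c d, P c d →
      out S c d h = (S.max' hS + (out S d c (h - S.max' hS)).2,
        (out S d c (h - S.max' hS)).1)) (h : ℕ) (hh : x ≤ h) (c d : Conv) (hcd : P c d) :
    out S c d (h + 2 * S.max' hS) =
      ((out S c d h).1 + S.max' hS, (out S c d h).2 + S.max' hS) := by
  have e1 := window S hS hpos P hP x hx hw (h + 2 * S.max' hS) (by omega) c d hcd
  have e2 := window S hS hpos P hP x hx hw (h + 2 * S.max' hS - S.max' hS) (by omega) d c
    (hP c d hcd)
  rw [e1, e2, show h + 2 * S.max' hS - S.max' hS - S.max' hS = h by omega]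
  exact Prod.ext (by simp only; omega) (by simp only; omega)

/-- (1) For every `S`, all outcomes are eventually periodic up to a linear term, and all
discrepancies are eventually periodic, with a common period `2 k`. (2) If all elements of `S` other
than `max S` are smaller than `max S / 4`, this holds with the period `2 max S`, from the start.
(3) If `min S` divides all elements of `S`, all discrepancies vanish.
(4) If in FvF and in AvA the move `max S` is a choice at `2 max S - 1` consecutive heap sizes
`x, ..., x + 2 max S - 2`, `x ≥ max S`, the same holds with the period `2 max S` from `x` on. -/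
theorem result (S : Finset ℕ) (hS : S.Nonempty) (hpos : ∀ s ∈ S, 1 ≤ s) :
    (∃ k : ℕ, 1 ≤ k ∧ 2 * k ≤ (3 * S.max' hS + 1) ^ (8 * S.max' hS) ∧
      ∀ h, S.max' hS + (3 * S.max' hS + 1) ^ (8 * S.max' hS) ≤ h →
        (∀ c d : Conv, out S c d (h + 2 * k) = ((out S c d h).1 + k, (out S c d h).2 + k)) ∧
        ∀ c d c' d' : Conv,
          ((out S c' d' (h + 2 * k)).1 : ℤ) - (out S c d (h + 2 * k)).1 =
            (out S c' d' h).1 - (out S c d h).1 ∧
          ((out S c' d' (h + 2 * k)).2 : ℤ) - (out S c d (h + 2 * k)).2 =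
            (out S c' d' h).2 - (out S c d h).2) ∧
    ((∀ s ∈ S, s ≠ S.max' hS → 4 * s < S.max' hS) → ∀ h,
        (∀ c d : Conv, out S c d (h + 2 * S.max' hS) =
          ((out S c d h).1 + S.max' hS, (out S c d h).2 + S.max' hS)) ∧
        ∀ c d c' d' : Conv,
          ((out S c' d' (h + 2 * S.max' hS)).1 : ℤ) - (out S c d (h + 2 * S.max' hS)).1 =
            (out S c' d' h).1 - (out S c d h).1 ∧
          ((out S c' d' (h + 2 * S.max' hS)).2 : ℤ) - (out S c d (h + 2 * S.max' hS)).2 =
            (out S c' d' h).2 - (out S c d h).2) ∧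
    ((∀ s ∈ S, S.min' hS ∣ s) → ∀ (h : ℕ) (c d c' d' : Conv), out S c' d' h = out S c d h) ∧
    (∀ x, S.max' hS ≤ x → (∀ h, x ≤ h → h + 1 < x + 2 * S.max' hS → ∀ c : Conv,
        out S c c h = (S.max' hS + (out S c c (h - S.max' hS)).2,
          (out S c c (h - S.max' hS)).1)) → ∀ h, x ≤ h →
        (∀ c : Conv, out S c c (h + 2 * S.max' hS) =
          ((out S c c h).1 + S.max' hS, (out S c c h).2 + S.max' hS)) ∧
        ((out S Conv.A Conv.A (h + 2 * S.max' hS)).1 : ℤ) -
            (out S Conv.F Conv.F (h + 2 * S.max' hS)).1 =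
          (out S Conv.A Conv.A h).1 - (out S Conv.F Conv.F h).1 ∧
        ((out S Conv.A Conv.A (h + 2 * S.max' hS)).2 : ℤ) -
            (out S Conv.F Conv.F (h + 2 * S.max' hS)).2 =
          (out S Conv.A Conv.A h).2 - (out S Conv.F Conv.F h).2) := by
  refine ⟨?_, ?_, ?_, ?_⟩
  · obtain ⟨k, hk1, hk2, hk3⟩ := outcomes S hS hpos
    refine ⟨k, hk1, hk2, fun h hh => ⟨hk3 h hh, fun c d c' d' => ?_⟩⟩
    rw [hk3 h hh c d, hk3 h hh c' d']
    constructor <;> push_cast <;> ring
  · intro h4 h
    refine ⟨greedy_period S hS hpos h4 h, fun c d c' d' => ?_⟩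
    rw [greedy_period S hS hpos h4 h c d, greedy_period S hS hpos h4 h c' d']
    constructor <;> push_cast <;> ring
  · intro hd h c d c' d'
    have hmem := S.min'_mem hS
    rw [(const_sum S _ hmem (hpos _ hmem) hd h c d).1, (const_sum S _ hmem (hpos _ hmem) hd h c' d').1]
  · intro x hx hw h hh
    have key : ∀ c : Conv, out S c c (h + 2 * S.max' hS) =
        ((out S c c h).1 + S.max' hS, (out S c c h).2 + S.max' hS) := by
      intro c
      refine window_period S hS hpos (fun c d => c = d) (fun c d h => h.symm) x hx ?_ h hh c c rfl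
      intro h h1 h2 c d hcd
      subst hcd
      exact hw h h1 h2 c
    refine ⟨key, ?_⟩
    rw [key Conv.A, key Conv.F]
    constructor <;> push_cast <;> ring

end Pool.Agent.Results.MP_e9de46_co.EventuallyPeriodic
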